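import Pool.Agent.Lib.H75F.F4

/-!
# MP_57a816_nt: primes `p` for which `(p+1)/p*` is one or a single prime

There are at least `c x/(log x)^2` primes `p ≤ x` for which the quotient `(p+1)/p*` is `1` or a prime `q`
between `p^(1/11)` and `p^(1/2-e)`; for these the rank of apparition `p*` is at least `p^(1/2+e)`.
-/

set_option autoImplicit false

namespace Pool.Agent.Results.MP_57a816_nt.IndexOneOrPrime

/-- The rank of apparition of `p`: the least `n ≥ 1` with `p ∣ F_n`. -/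
noncomputable def rank (p : ℕ) : ℕ := sInf {n : ℕ | 1 ≤ n ∧ p ∣ Nat.fib n}

/-- `p` is a prime, its rank of apparition `p*` is at least `p^(1/2+e)`, and `p* * q = p + 1` where `q` is `1` or
a prime with `p^(1/11) < q ≤ p^(1/2-e)`. -/
def AlmostMaximal (e : ℝ) (p : ℕ) : Prop :=
  p.Prime ∧ (p : ℝ) ^ (1 / 2 + e) ≤ rank p ∧ ∃ q : ℕ, rank p * q = p + 1 ∧
    (q = 1 ∨ q.Prime ∧ (p : ℝ) ^ (1 / 11 : ℝ) < q ∧ (q : ℝ) ≤ (p : ℝ) ^ (1 / 2 - e))

/-- There are `c, e > 0` such that for all large `x` at least `c x / (log x)^2` primes `p ≤ x` have rank of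
apparition `p* ≥ p^(1/2+e)` with `(p+1)/p*` equal to `1` or to a single prime `q`, `p^(1/11) < q ≤ p^(1/2-e)`. -/
theorem result : ∃ c e : ℝ, 0 < c ∧ 0 < e ∧ ∀ᶠ x : ℕ in Filter.atTop,
    c * (x / Real.log x ^ 2) ≤ ({p : ℕ | p ≤ x ∧ AlmostMaximal e p}.ncard : ℝ) := by
  classical
  obtain ⟨c, hc, e, he, X0, h⟩ := Pool.Agent.Lib.H75F.main
  refine ⟨c, e, hc, he, Filter.eventually_atTop.2 ⟨X0, fun x hx => ?_⟩⟩
  refine (h x hx).trans (le_of_eq ?_)
  have h1 : {p : ℕ | p ≤ x ∧ AlmostMaximal e p} =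
      ((Finset.Icc 1 x).filter (Pool.Agent.Lib.H75F.Good e) : Finset ℕ) := by
    ext p
    simp only [Set.mem_ofPred_eq, Finset.coe_filter, Finset.mem_Icc]
    constructor
    · rintro ⟨h2, h3⟩
      exact ⟨⟨h3.1.one_lt.le, h2⟩, h3⟩
    · rintro ⟨h2, h3⟩
      exact ⟨h2.2, h3⟩
  rw [h1, Set.ncard_coe_finset]

end Pool.Agent.Results.MP_57a816_nt.IndexOneOrPrime
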